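import Pool.Agent.helper35.LV.Spec

/-!
# Row lv:HX1: powers
-/

set_option autoImplicit false

namespace Pool.Agent.LV

open Matrix Pool.Agent.H48SL Pool.Agent.UG

theorem HX1_mul (i j k : Fin 3) (hij : i ≠ j) (hjk : j ≠ k) (hik : i ≠ k) (a c e a' c' e' : ℚ) :
    nn i j k a c e * nn i j k a' c' e' = nn i j k (a + a') (c + c') (e + e' + a * c') := by
  unfold nn
  ext x y
  fin_cases i <;> fin_cases j <;> first | exact absurd rfl hij | skip
  all_goals fin_cases k <;> first | exact absurd rfl hjk | exact absurd rfl hik | skip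
  all_goals fin_cases x <;> fin_cases y <;> simp [Matrix.mul_apply, Fin.sum_univ_three, Matrix.single, Matrix.one_apply] <;> ring


theorem HX1_zero (i j k : Fin 3) : nn i j k 0 0 0 = 1 := by
  unfold nn
  simp

/-- Row HX1 -/
theorem HX1 : HX1_stmt := by
  intro S hS i j k hij hjk hik a c e hm m
  have hnat : ∀ m : ℕ, nn i j k (m * a) (m * c) (m * e + m * (m - 1) / 2 * (a * c)) ∈ S := by
    intro m
    induction m with
    | zero =>
      have h : nn i j k ((0 : ℕ) * a) ((0 : ℕ) * c) ((0 : ℕ) * e + (0 : ℕ) * ((0 : ℕ) - 1) / 2 * (a * c)) = 1 := by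
        rw [← HX1_zero i j k]
        congr 1 <;> push_cast <;> ring
      rw [h]
      exact hS.1
    | succ m ih =>
      have h := hS.2.1 _ ih _ hm
      rw [HX1_mul i j k hij hjk hik] at h
      have h2 : nn i j k ((m + 1 : ℕ) * a) ((m + 1 : ℕ) * c) ((m + 1 : ℕ) * e + (m + 1 : ℕ) * ((m + 1 : ℕ) - 1) / 2 * (a * c)) =
          nn i j k (m * a + a) (m * c + c) (m * e + m * (m - 1) / 2 * (a * c) + e + m * a * c) := by
        congr 1 <;> push_cast <;> ring
      rw [h2]
      exact h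
  obtain ⟨n, rfl | rfl⟩ := m.eq_nat_or_neg
  · exact_mod_cast hnat n
  · obtain ⟨B, hB, h1, h2⟩ := hS.2.2 _ (hnat n)
    have h3 : nn i j k (n * a) (n * c) (n * e + n * (n - 1) / 2 * (a * c)) *
        nn i j k (((-(n : ℤ) : ℤ) : ℚ) * a) (((-(n : ℤ) : ℤ) : ℚ) * c)
          (((-(n : ℤ) : ℤ) : ℚ) * e + ((-(n : ℤ) : ℤ) : ℚ) * (((-(n : ℤ) : ℤ) : ℚ) - 1) / 2 * (a * c)) = 1 := by
      rw [HX1_mul i j k hij hjk hik, ← HX1_zero i j k]
      congr 1 <;> push_cast <;> ring
    have h4 := congrArg (fun X => B * X) h3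
    rw [← mul_assoc, h2, one_mul, mul_one] at h4
    rw [h4]
    exact hB

end Pool.Agent.LV
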